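import Pool.Agent.helper169_quad.Fin
import Pool.Agent.helper169_quad.Conv

/-!
# C(4)-T(4) small cancellation complexes coarsely embed into Hilbert spaces
-/

set_option autoImplicit false

universe u

namespace Pool.Agent.Results.MP_db4510_al.CoarseEmbedding

open Pool.Agent.H169Q Filter

/-- The path metric of the graph `G` on its set of vertices admits a coarse embedding into a
Hilbert space. -/
def CoarselyEmbeds {V : Type u} (G : SimpleGraph V) : Prop :=
  ∃ (H : Type u) (_ : NormedAddCommGroup H) (_ : InnerProductSpace ℝ H)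
    (_ : CompleteSpace H) (f : V → H) (ρm ρp : ℝ → ℝ),
      Monotone ρm ∧ Monotone ρp ∧ (∀ t, 0 ≤ ρm t) ∧ (∀ t, 0 ≤ ρp t) ∧
      Tendsto ρm atTop atTop ∧
      ∀ x y : V, ρm (G.dist x y : ℝ) ≤ ‖f x - f y‖ ∧ ‖f x - f y‖ ≤ ρp (G.dist x y : ℝ)

/-- Simply connected, uniformly locally finite C(4)-T(4) small cancellation complexes admit a
coarse embedding into a Hilbert space. -/
theorem result {V : Type u} {E C : Type*} (X : Cx V E C) (hC : X.C4) (hT : X.T4)
    (hS : X.SimplyConnected) (N : ℕ) (hL : X.LocallyFinite N) : CoarselyEmbeds X.graph :=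
  coarse_of_measures' (X.graph_conn hS) fun _ hε => X.measures hC hT hS hL hε

end Pool.Agent.Results.MP_db4510_al.CoarseEmbedding
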