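import Pool.Agent.helper169_quad.Fin
import Pool.Agent.helper169_quad.Conv

/-!
# Property A for C(4)-T(4) small cancellation complexes
-/

set_option autoImplicit false

namespace Pool.Agent.Results.MP_db4510_al.PropertyA

open Pool.Agent.H169Q

/-- Yu's Property A for the path metric of the graph `G` on its set of vertices. -/
def PropertyA {V : Type*} (G : SimpleGraph V) : Prop :=
  ∀ R ε : ℝ, 0 < R → 0 < ε → ∃ S : ℝ, 0 < S ∧ ∃ A : V → Set (V × ℕ),
    (∀ x, (A x).Finite ∧ (A x).Nonempty ∧ ∀ p ∈ A x, (G.dist x p.1 : ℝ) ≤ S) ∧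
    ∀ x y, (G.dist x y : ℝ) ≤ R →
      ((symmDiff (A x) (A y)).ncard : ℝ) < ε * ((A x ∩ A y).ncard : ℝ)

/-- Simply connected, uniformly locally finite C(4)-T(4) small cancellation complexes have
Property A. -/
theorem result {V E C : Type*} (X : Cx V E C) (hC : X.C4) (hT : X.T4) (hS : X.SimplyConnected)
    (N : ℕ) (hL : X.LocallyFinite N) : PropertyA X.graph :=
  yu_of_propertyA (X.graph_conn hS) (X.ball_bd hS hL) (X.propertyA hC hT hS hL)

end Pool.Agent.Results.MP_db4510_al.PropertyA
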